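import Mathlib

/-! The order of a finite `p`-group is bounded by a function of its number of conjugacy classes. -/

namespace MNF

/-- `c(P) ≥ |Z(P)| + c(P/Z(P)) - 1`. -/
theorem classes_center (P : Type*) [Group P] [Finite P] :
    Nat.card (Subgroup.center P) + Nat.card (ConjClasses (P ⧸ Subgroup.center P)) ≤
      Nat.card (ConjClasses P) + 1 := by
  classical
  set N := Subgroup.center P with hN
  let q : P →* P ⧸ N := QuotientGroup.mk' N
  have hq : Function.Surjective q := QuotientGroup.mk'_surjective N
  let f : ConjClasses P → ConjClasses (P ⧸ N) := ConjClasses.map q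
  have hf : Function.Surjective f := by
    intro c
    obtain ⟨x, rfl⟩ := ConjClasses.mk_surjective c
    obtain ⟨y, rfl⟩ := hq x
    exact ⟨ConjClasses.mk y, rfl⟩
  obtain ⟨g, hg⟩ := hf.hasRightInverse
  have : Finite (ConjClasses P) := Quotient.finite _
  have : Finite (ConjClasses (P ⧸ N)) := Quotient.finite _
  let i : N ⊕ {c : ConjClasses (P ⧸ N) // c ≠ 1} → ConjClasses P :=
    Sum.elim (fun z => ConjClasses.mk (z : P)) (fun c => g c.1)
  have hfN : ∀ z : N, f (ConjClasses.mk (z : P)) = 1 := by
    intro z
    have h1 : q (z : P) = 1 := (QuotientGroup.eq_one_iff _).2 z.2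
    have h2 : f (ConjClasses.mk (z : P)) = ConjClasses.mk (q (z : P)) := rfl
    rw [h2, h1]
    rfl
  have hi : Function.Injective i := by
    rintro (z | c) (z' | c') h
    · have h1 : ConjClasses.mk (z : P) = ConjClasses.mk (z' : P) := h
      rw [ConjClasses.mk_eq_mk_iff_isConj, isConj_iff] at h1
      obtain ⟨t, ht⟩ := h1
      have h2 : t * (z : P) = z * t := (Subgroup.mem_center_iff.1 z.2 t)
      rw [h2, mul_inv_cancel_right] at ht
      exact congrArg Sum.inl (Subtype.ext ht)
    · exfalso
      have h1 : ConjClasses.mk (z : P) = g c'.1 := h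
      apply c'.2
      rw [← hg c'.1, ← h1]
      exact hfN z
    · exfalso
      have h1 : g c.1 = ConjClasses.mk (z' : P) := h
      apply c.2
      rw [← hg c.1, h1]
      exact hfN z'
    · have h1 : g c.1 = g c'.1 := h
      refine congrArg Sum.inr (Subtype.ext ?_)
      rw [← hg c.1, h1, hg]
  have h1 := Nat.card_le_card_of_injective i hi
  rw [Nat.card_sum] at h1
  have h2 : Nat.card {c : ConjClasses (P ⧸ N) // c ≠ 1} + 1 =
      Nat.card (ConjClasses (P ⧸ N)) := by
    have : Fintype (ConjClasses (P ⧸ N)) := Fintype.ofFinite _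
    rw [Nat.card_eq_fintype_card, Nat.card_eq_fintype_card,
      Fintype.card_subtype_compl, Fintype.card_subtype_eq]
    exact Nat.succ_pred_eq_of_pos Fintype.card_pos
  show Nat.card N + Nat.card (ConjClasses (P ⧸ N)) ≤ Nat.card (ConjClasses P) + 1
  omega

/-- a group of order `p ^ n` has at least `n + 1` classes. -/
theorem le_classes (p : ℕ) [Fact p.Prime] (n : ℕ) : ∀ (P : Type*) [Group P] [Finite P],
    Nat.card P = p ^ n → n + 1 ≤ Nat.card (ConjClasses P) := by
  induction n using Nat.strong_induction_on with
  | _ n ih =>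
    intro P _ _ hP
    have : Finite (ConjClasses P) := Quotient.finite _
    rcases Nat.eq_zero_or_pos n with rfl | hn
    · exact Nat.card_pos
    have hp : p.Prime := Fact.out
    have hPp : IsPGroup p P := IsPGroup.of_card hP
    have : Nontrivial P := by
      rw [← Finite.one_lt_card_iff_nontrivial, hP]
      exact Nat.one_lt_pow hn.ne' hp.one_lt
    have hc : Nontrivial (Subgroup.center P) := hPp.center_nontrivial
    obtain ⟨j, hj⟩ := (hPp.to_subgroup (Subgroup.center P)).exists_card_eq
    obtain ⟨m, hm⟩ := (hPp.to_quotient (Subgroup.center P)).exists_card_eq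
    have hj0 : j ≠ 0 := by
      rintro rfl
      have h1 := Finite.one_lt_card (α := Subgroup.center P)
      rw [hj] at h1
      simp at h1
    have h2 := Subgroup.card_eq_card_quotient_mul_card_subgroup (Subgroup.center P)
    rw [hP, hj, hm, ← pow_add] at h2
    have h3 : n = m + j := Nat.pow_right_injective hp.two_le h2
    have h4 := ih m (by omega) (P ⧸ Subgroup.center P) hm
    have h5 := classes_center P
    have h6 : j < p ^ j := Nat.lt_pow_self hp.one_lt
    rw [hj] at h5
    omega

theorem prime_le_classes (p : ℕ) [Fact p.Prime] (P : Type*) [Group P] [Finite P]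
    (hP : IsPGroup p P) (h : Nontrivial P) : p ≤ Nat.card (ConjClasses P) := by
  have hp : p.Prime := Fact.out
  have hc : Nontrivial (Subgroup.center P) := hP.center_nontrivial
  obtain ⟨j, hj⟩ := (hP.to_subgroup (Subgroup.center P)).exists_card_eq
  have hj0 : j ≠ 0 := by
    rintro rfl
    have h1 := Finite.one_lt_card (α := Subgroup.center P)
    rw [hj] at h1
    simp at h1
  have : Finite (ConjClasses (P ⧸ Subgroup.center P)) := Quotient.finite _
  have h5 := classes_center P
  have h6 : 0 < Nat.card (ConjClasses (P ⧸ Subgroup.center P)) := Nat.card_pos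
  have h7 : p ≤ p ^ j := Nat.le_self_pow hj0 p
  rw [hj] at h5
  omega

/-- the order of a finite `p`-group is bounded by a function of its number of classes. -/
theorem card_le_of_classes (p : ℕ) [Fact p.Prime] (P : Type*) [Group P] [Finite P]
    (hP : IsPGroup p P) :
    Nat.card P ≤ Nat.card (ConjClasses P) ^ Nat.card (ConjClasses P) := by
  have : Finite (ConjClasses P) := Quotient.finite _
  have h0 : 0 < Nat.card (ConjClasses P) := Nat.card_pos
  rcases subsingleton_or_nontrivial P with h | h
  · rw [Nat.card_of_subsingleton (1 : P)]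
    exact Nat.one_le_pow _ _ h0
  · obtain ⟨n, hn⟩ := hP.exists_card_eq
    have h1 := le_classes p n P hn
    have h2 := prime_le_classes p P hP h
    rw [hn]
    exact (Nat.pow_le_pow_left h2 n).trans (Nat.pow_le_pow_right h0 (by omega))

end MNF
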